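import Pool.Agent.Lib.MP_ef6aaf_al.All2
import Pool.Agent.Lib.MP_ef6aaf_al.AdTrans

/-!
# If a word in two letters induces Haar measure on `U(n)` then the adjoint cohomology is small

The definitions (`U`, `HaarOn`, `G`, `adZ`, `adB`, `adH`, `AdSmall`) are in
`Pool/Agent/Lib/MP_ef6aaf_al/Defs.lean` and `Pool/Agent/Lib/MP_ef6aaf_al/DefsAd.lean`.
-/

namespace Pool.Agent.Results.MP_ef6aaf_al.AdCohomology

open Pool.Agent.Lib.MP_ef6aaf_al

/-- Let the word `w` in two letters induce Haar measure on `U(n)`, for one `n ≥ 1`. Then every representation `ρ` of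
`⟨x, y | w⟩` in `U(n)` satisfies `dim H¹(ad ρ) < 2 dim H⁰(ad ρ)`. -/
theorem result : ∀ (w : FreeGroup (Fin 2)) (n : ℕ), 1 ≤ n → HaarOn w n → ∀ ρ : G w →* U n, AdSmall ρ :=
  fun w n hn hw ρ => ad_trans ρ (a_ad_ad w n hn hw ρ)

end Pool.Agent.Results.MP_ef6aaf_al.AdCohomology
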