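import Pool.Agent.Lib.MP_ef6aaf_al.All3

/-!
# Words inducing Haar measure whose one-relator group has a perfect commutator subgroup

The definitions (`U`, `HaarOn`, `G`, `AbelianReps`) are in `Pool/Agent/Lib/MP_ef6aaf_al/Defs.lean`.
-/

namespace Pool.Agent.Results.MP_ef6aaf_al.PerfectCommutator

open Pool.Agent.Lib.MP_ef6aaf_al

/-- Let `w` be a word in two letters such that the commutator subgroup of `⟨x, y | w⟩` is perfect, and suppose that `w` induces
Haar measure on `U(n)` for `2 ≤ n ≤ N`. Then all unitary representations of `⟨x, y | w⟩` of dimension at most `N` are abelian,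
and all its quotients of order at most `N` are cyclic. -/
theorem result : ∀ (w : FreeGroup (Fin 2)) (N : ℕ), ⁅commutator (G w), commutator (G w)⁆ = commutator (G w) →
    (∀ n, 2 ≤ n → n ≤ N → HaarOn w n) → AbelianReps w N :=
  a_m3_m3

end Pool.Agent.Results.MP_ef6aaf_al.PerfectCommutator
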