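import Pool.Agent.Lib.MP_ef6aaf_al.All1

/-!
# Words inducing Haar measure on `U(2), …, U(N+1)` have rigid one-relator groups

The definitions (`U`, `HaarOn`, `G`, `IsCocycle`, `IsFixed`, `IsCobound`, `Rigid`) are in
`Pool/Agent/Lib/MP_ef6aaf_al/Defs.lean`.
-/

namespace Pool.Agent.Results.MP_ef6aaf_al.Rigidity

open Pool.Agent.Lib.MP_ef6aaf_al

/-- Let `N ≥ 1` and let the word `w` in two letters induce Haar measure on `U(n)` for `2 ≤ n ≤ N + 1`. Then every unitary
representation of `⟨x, y | w⟩` of dimension at most `N` without nonzero fixed vector has vanishing first cohomology, and every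
subgroup of index at most `N + 1` has first Betti number at most one. -/
theorem result : ∀ (w : FreeGroup (Fin 2)) (N : ℕ), 1 ≤ N → (∀ n, 2 ≤ n → n ≤ N + 1 → HaarOn w n) →
    Rigid w N :=
  a_m1_m1

end Pool.Agent.Results.MP_ef6aaf_al.Rigidity
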