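import Mathlib
import Pool.Agent.Lib.MP_ef6aaf_al.Defs
import Pool.Agent.Lib.MP_ef6aaf_al.EF.Final

open Filter Pool.Agent.Lib.MP_ef6aaf_al

namespace Pool.Agent.Results.MP_ef6aaf_al.TwoGenerators

/-- **The question for words in two letters.**  If a word `w` in the free group `F_2` induces Haar
measure on the unitary group `U(n)` for infinitely many `n`, then `w` is primitive: some automorphism
of `F_2` maps the first generator to `w`. -/
theorem result (w : FreeGroup (Fin 2)) (hw : ∃ᶠ n in atTop, HaarOn w n) :
    ∃ φ : FreeGroup (Fin 2) ≃* FreeGroup (Fin 2), φ (FreeGroup.of 0) = w :=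
  Pool.Agent.EF.p_main w hw

end Pool.Agent.Results.MP_ef6aaf_al.TwoGenerators
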